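import Pool.Agent.MWS.StmtsA

/-!
# Row LRN of squad MWS
-/

namespace Pool.Agent.MWS.H8

open Pool.Agent.Helper14_MV Pool.Agent.Helper2_MV Pool.Agent.MVO Pool.Agent.MWL

/-- row LRN -/
theorem lrn : LrnStmt := by
  intro β θ hβ hle
  refine ⟨le_refl 1, ?_, ?_⟩
  · have e1 : mw 0 (sg 0 2) = [0, 0] := by decide
    have e2 : mw 0 (sg 0 (1 + 2)) = [0, 0, 0] := by decide
    show RR θ (mw 0 (sg 0 2)) (mw 0 (sg 0 (1 + 2)))
    rw [e1, e2]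
    exact hle _ _ hβ.ap
  · have e1 : mw 1 (v2 2 1) = [0, 0, 2, 0] := by decide
    have e2 : mw 1 (v2 2 (1 + 1)) = [0, 0, 2, 0, 0] := by decide
    show RR θ (mw 1 (v2 2 1)) (mw 1 (v2 2 (1 + 1)))
    rw [e1, e2]
    exact hle _ _ hβ.rr

end Pool.Agent.MWS.H8
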